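import Pool.Agent.Helper73.LL.Goals

/-! Packet LL-TLP: tree-like closed trajectories force many letters to fix points, alone or in
disjoint pairs. -/

namespace Pool.Agent.Helper14.LL

open Equiv Pool.Agent.Helper6.W Pool.Agent.Helper73.LL

section abstract

variable {α β : Type} [DecidableEq β] (P A : ℕ → α) (e : ℕ → β) (φ : β → β → ℕ)

/-- the slot `s` leads from `x` to `z` -/
def Lead : List ℕ → α → α → Prop
  | [], x, z => x = z
  | t :: s, x, z => A t = x ∧ Lead s (P (t + 1)) z

theorem lead_append (s s' : List ℕ) (x z : α) :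
    Lead P A (s ++ s') x z ↔ ∃ w, Lead P A s x w ∧ Lead P A s' w z := by
  induction s generalizing x with
  | nil => simp [Lead]
  | cons t s ih =>
    simp only [List.cons_append, Lead, ih]
    constructor
    · rintro ⟨h, w, h1, h2⟩
      exact ⟨w, ⟨h, h1⟩, h2⟩
    · rintro ⟨w, ⟨h, h1⟩, h2⟩
      exact ⟨h, w, h1, h2⟩

/-- crossings and slots lead from `x` to `z` -/
def Tr : List (ℕ × List ℕ) → α → α → Prop
  | [], x, z => x = z
  | c :: L, x, z => P c.1 = x ∧ ∃ w, Lead P A c.2 (A c.1) w ∧ Tr L w z

theorem tr_append (L L' : List (ℕ × List ℕ)) (x z : α) :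
    Tr P A (L ++ L') x z ↔ ∃ w, Tr P A L x w ∧ Tr P A L' w z := by
  induction L generalizing x with
  | nil => simp [Tr]
  | cons t s ih =>
    simp only [List.cons_append, Tr, ih]
    constructor
    · rintro ⟨h, u, h1, w, h2, h3⟩
      exact ⟨w, ⟨h, u, h1, h2⟩, h3⟩
    · rintro ⟨w, ⟨h, u, h1, h2⟩, h3⟩
      exact ⟨h, u, h1, w, h2, h3⟩

/-- invariant of the list of remaining crossing times -/
def Inv (K : List ℕ) : Prop :=
  (∀ c, Even ((K.map e).count c)) ∧
    ∀ G x G', K = G ++ x :: G' → x % 2 = G.length % 2 ∧
      ∀ c, c ≠ e x → (G.map e).count c % 2 = φ (e x) c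

theorem count_pair (c a b : β) (h : a = b) (G : List β) :
    (a :: b :: G).count c % 2 = G.count c % 2 := by
  subst h
  by_cases hc : a = c
  · subst hc
    simp only [List.count_cons_self]
    omega
  · rw [List.count_cons_of_ne hc, List.count_cons_of_ne hc]

theorem inv_remove (G1 G3 : List ℕ) (a b : ℕ) (hab : e a = e b)
    (h : Inv e φ (G1 ++ a :: b :: G3)) : Inv e φ (G1 ++ G3) := by
  obtain ⟨h1, h2⟩ := h
  constructor
  · intro c
    have := h1 c
    have e2 := count_pair c (e a) (e b) hab (G3.map e)
    simp only [List.map_append, List.map_cons, List.count_append] at this ⊢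
    rw [Nat.even_iff] at this ⊢
    omega
  · intro G x G' hK
    rw [List.append_eq_append_iff] at hK
    rcases hK with ⟨F, hF1, hF2⟩ | ⟨F, hF1, hF2⟩
    · -- G = G1 ++ F, G3 = F ++ x :: G'
      have := h2 (G1 ++ a :: b :: F) x G' (by rw [hF2]; simp)
      obtain ⟨q1, q2⟩ := this
      refine ⟨?_, ?_⟩
      · rw [q1, hF1]
        simp only [List.length_append, List.length_cons]
        omega
      · intro c hc
        rw [← q2 c hc, hF1]
        have e2 := count_pair c (e a) (e b) hab (F.map e)
        simp only [List.map_append, List.map_cons, List.count_append]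
        omega
    · -- G1 = G ++ F, x :: G' = F ++ G3
      cases F with
      | nil =>
        simp only [List.append_nil, List.nil_append] at hF1 hF2
        have := h2 (G1 ++ a :: b :: []) x G' (by rw [← hF2]; simp)
        obtain ⟨q1, q2⟩ := this
        subst hF1
        refine ⟨?_, ?_⟩
        · rw [q1]
          simp only [List.length_append, List.length_cons, List.length_nil]
          omega
        · intro c hc
          rw [← q2 c hc]
          have e2 := count_pair c (e a) (e b) hab []
          simp only [List.map_append, List.map_cons, List.count_append, List.map_nil]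
          have e3 : List.count c ([] : List β) = 0 := rfl
          omega
      | cons f F =>
        simp only [List.cons_append, List.cons.injEq] at hF2
        obtain ⟨hx, hG'⟩ := hF2
        subst hx
        exact h2 G x (F ++ a :: b :: G3) (by rw [hF1]; simp)

theorem mid_even (G1 G2 G3 : List ℕ) (a b : ℕ) (hab : e a = e b)
    (h : Inv e φ (G1 ++ a :: (G2 ++ b :: G3))) (c : β) (hc : c ≠ e a) :
    Even ((G2.map e).count c) := by
  have q1 := (h.2 G1 a (G2 ++ b :: G3) rfl).2 c hc
  have q2 := (h.2 (G1 ++ a :: G2) b G3 (by simp)).2 c (by rw [← hab]; exact hc)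
  rw [← hab] at q2
  rw [← q2] at q1
  simp only [List.map_append, List.map_cons, List.count_append] at q1
  rw [List.count_cons_of_ne (Ne.symm hc)] at q1
  rw [Nat.even_iff]
  omega

theorem exists_adj (K : List ℕ) (h : Inv e φ K) :
    ∀ (m : ℕ) (G1 G2 G3 : List ℕ) (a b : ℕ), G2.length ≤ m → e a = e b →
      K = G1 ++ a :: (G2 ++ b :: G3) →
      ∃ G1 a b G3, K = G1 ++ a :: b :: G3 ∧ e a = e b := by
  intro m
  induction m with
  | zero =>
    intro G1 G2 G3 a b hm hab hK
    have : G2 = [] := List.length_eq_zero_iff.1 (by omega)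
    subst this
    exact ⟨G1, a, b, G3, hK, hab⟩
  | succ m ih =>
    intro G1 G2 G3 a b hm hab hK
    cases G2 with
    | nil => exact ⟨G1, a, b, G3, hK, hab⟩
    | cons g G2 =>
      by_cases hg : e g = e a
      · exact ⟨G1, a, g, G2 ++ b :: G3, by rw [hK]; simp, hg.symm⟩
      · have hev := mid_even e φ G1 (g :: G2) G3 a b hab (hK ▸ h) (e g) hg
        simp only [List.map_cons, List.count_cons_self] at hev
        have hpos : 0 < (G2.map e).count (e g) := by
          rw [Nat.even_iff] at hev
          omega
        rw [List.count_pos_iff] at hpos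
        obtain ⟨x, hx, hxe⟩ := List.mem_map.1 hpos
        obtain ⟨F1, F2, hF⟩ := List.append_of_mem hx
        refine ih (G1 ++ [a]) F1 (F2 ++ b :: G3) g x ?_ hxe.symm ?_
        · rw [hF] at hm
          simp only [List.length_cons, List.length_append] at hm
          omega
        · rw [hK, hF]
          simp

theorem adj (K : List ℕ) (h : Inv e φ K) (hK : K ≠ []) :
    ∃ G1 a b G3, K = G1 ++ a :: b :: G3 ∧ e a = e b := by
  cases K with
  | nil => exact absurd rfl hK
  | cons a K =>
    have h1 := h.1 (e a)
    simp only [List.map_cons, List.count_cons_self] at h1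
    have hpos : 0 < (K.map e).count (e a) := by
      rw [Nat.even_iff] at h1
      omega
    rw [List.count_pos_iff] at hpos
    obtain ⟨x, hx, hxe⟩ := List.mem_map.1 hpos
    obtain ⟨F1, F2, hF⟩ := List.append_of_mem hx
    exact exists_adj e φ (a :: K) h F1.length [] F1 F2 a x le_rfl hxe.symm (by rw [hF]; simp)

/-- all letters of the remaining slots, in order -/
def flat (s0 : List ℕ) (L : List (ℕ × List ℕ)) : List ℕ := s0 ++ L.flatMap Prod.snd

theorem main (hopp : ∀ a b, e a = e b → a % 2 ≠ b % 2 → A a = P b) (p : α) :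
    ∀ (k : ℕ) (L : List (ℕ × List ℕ)) (s0 : List ℕ) (w : α), L.length = 2 * k →
      Inv e φ (L.map Prod.fst) → Lead P A s0 p w → Tr P A L w p →
      (∀ c ∈ L, c.2 ≠ []) → (L = [] → s0 ≠ []) → (flat s0 L).Pairwise (· < ·) →
      ∃ (S₁ : Finset ℕ) (S₂ : Finset (ℕ × ℕ)),
        (∀ t ∈ S₁, t ∈ flat s0 L ∧ P (t + 1) = A t) ∧
        (∀ s ∈ S₂, s.1 ∈ flat s0 L ∧ s.2 ∈ flat s0 L ∧ s.1 < s.2 ∧ P (s.1 + 1) = A s.2 ∧
          P (s.2 + 1) = A s.1) ∧
        (∀ s ∈ S₂, ∀ s' ∈ S₂, s ≠ s' → s.1 ≠ s'.1 ∧ s.1 ≠ s'.2 ∧ s.2 ≠ s'.1 ∧ s.2 ≠ s'.2) ∧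
        (3 - s0.length) + (L.map fun c => 3 - c.2.length).sum ≤
          3 * k + 2 * S₁.card + S₂.card := by
  -- a closed slot
  have hclosed : ∀ (s : List ℕ) (x : α), Lead P A s x x → s ≠ [] → s.Pairwise (· < ·) →
      ∃ (S₁ : Finset ℕ) (S₂ : Finset (ℕ × ℕ)),
        (∀ t ∈ S₁, t ∈ s ∧ P (t + 1) = A t) ∧
        (∀ r ∈ S₂, r.1 ∈ s ∧ r.2 ∈ s ∧ r.1 < r.2 ∧ P (r.1 + 1) = A r.2 ∧
          P (r.2 + 1) = A r.1) ∧
        (∀ r ∈ S₂, ∀ r' ∈ S₂, r ≠ r' → r.1 ≠ r'.1 ∧ r.1 ≠ r'.2 ∧ r.2 ≠ r'.1 ∧ r.2 ≠ r'.2) ∧
        3 - s.length ≤ 2 * S₁.card + S₂.card := by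
    intro s x hs hne hpw
    match s, hs, hne, hpw with
    | [], _, hne, _ => exact absurd rfl hne
    | [t], hs, _, _ =>
      refine ⟨{t}, ∅, ?_, by simp, by simp, by simp⟩
      intro u hu
      rw [Finset.mem_singleton] at hu
      subst hu
      simp only [Lead] at hs
      exact ⟨by simp, by rw [hs.2, hs.1]⟩
    | [t, u], hs, _, hpw =>
      refine ⟨∅, {(t, u)}, by simp, ?_, ?_, by simp⟩
      · intro r hr
        rw [Finset.mem_singleton] at hr
        subst hr
        simp only [Lead] at hs
        have : t < u := by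
          have := hpw
          simp only [List.pairwise_cons, List.mem_singleton, forall_eq] at this
          exact this.1
        exact ⟨by simp, by simp, this, hs.2.1.symm, by rw [hs.2.2, hs.1]⟩
      · intro r hr r' hr' hrr
        rw [Finset.mem_singleton] at hr hr'
        exact absurd (hr.trans hr'.symm) hrr
    | t :: u :: v :: s, _, _, _ =>
      refine ⟨∅, ∅, by simp, by simp, by simp, by simp⟩
  intro k
  induction k with
  | zero =>
    intro L s0 w hL hInv hlead htr hne hs0 hpw
    have hL0 : L = [] := List.length_eq_zero_iff.1 (by omega)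
    subst hL0
    simp only [Tr] at htr
    subst htr
    simp only [flat, List.flatMap_nil, List.append_nil] at hpw ⊢
    obtain ⟨S₁, S₂, h1, h2, h3, h4⟩ := hclosed s0 w hlead (hs0 rfl) hpw
    exact ⟨S₁, S₂, h1, h2, h3, by simpa using h4⟩
  | succ k ih =>
    intro L s0 w hL hInv hlead htr hne hs0 hpw
    have hKne : L.map Prod.fst ≠ [] := by
      intro h
      rw [List.map_eq_nil_iff] at h
      rw [h] at hL
      simp at hL
    obtain ⟨G1, a, b, G3, hK, hab⟩ := adj e φ _ hInv hKne
    rw [List.map_eq_append_iff] at hK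
    obtain ⟨L1, L2, rfl, hL1, hL2⟩ := hK
    rw [List.map_eq_cons_iff] at hL2
    obtain ⟨⟨a', s⟩, L2', rfl, ha', hL2'⟩ := hL2
    rw [List.map_eq_cons_iff] at hL2'
    obtain ⟨⟨b', s'⟩, L3, rfl, hb', hL3⟩ := hL2'
    simp only at ha' hb'
    subst ha' hb'
    -- parities
    have hpar : a' % 2 ≠ b' % 2 := by
      have e1 := (hInv.2 G1 a' (b' :: G3) (by simp [hL1, hL3])).1
      have e2 := (hInv.2 (G1 ++ [a']) b' G3 (by simp [hL1, hL3])).1
      rw [List.length_append, List.length_singleton] at e2
      omega
    have hAP := hopp a' b' hab hpar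
    have hBP := hopp b' a' hab.symm (Ne.symm hpar)
    rw [tr_append] at htr
    obtain ⟨w1, htr1, htr2⟩ := htr
    simp only [Tr] at htr2
    obtain ⟨hPa, w2, hs, hPb, w3, hs', htr3⟩ := htr2
    -- the slot between is closed
    rw [hAP, hPb] at hs
    rw [hBP, hPa] at hs'
    have hsne : s ≠ [] := hne (a', s) (by simp)
    have hsne' : s' ≠ [] := hne (b', s') (by simp)
    have hflat : flat s0 (L1 ++ (a', s) :: (b', s') :: L3) =
        (s0 ++ L1.flatMap Prod.snd) ++ (s ++ (s' ++ L3.flatMap Prod.snd)) := by
      simp [flat]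
    have hInv' : Inv e φ (L1.map Prod.fst ++ L3.map Prod.fst) := by
      refine inv_remove e φ _ _ a' b' hab ?_
      simpa using hInv
    rw [hflat] at hpw
    rw [List.pairwise_append] at hpw
    obtain ⟨hpw1, hpw2, hpw3⟩ := hpw
    rw [List.pairwise_append] at hpw2
    obtain ⟨hpws, hpw4, hpw5⟩ := hpw2
    obtain ⟨S₁, S₂, c1, c2, c3, c4⟩ := hclosed s w2 hs hsne hpws
    -- the new state
    obtain ⟨L', t0, w', hlen, hmap, hlead', htr', hne', ht0, hfl, hwt⟩ :
        ∃ (L' : List (ℕ × List ℕ)) (t0 : List ℕ) (w' : α), L'.length = 2 * k ∧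
          L'.map Prod.fst = L1.map Prod.fst ++ L3.map Prod.fst ∧
          Lead P A t0 p w' ∧ Tr P A L' w' p ∧ (∀ c ∈ L', c.2 ≠ []) ∧ (L' = [] → t0 ≠ []) ∧
          flat t0 L' = (s0 ++ L1.flatMap Prod.snd) ++ (s' ++ L3.flatMap Prod.snd) ∧
          (3 - s0.length) + (L1.map fun c => 3 - c.2.length).sum + (3 - s'.length) +
            (L3.map fun c => 3 - c.2.length).sum ≤
          3 + ((3 - t0.length) + (L'.map fun c => 3 - c.2.length).sum) := by
      rcases List.eq_nil_or_concat L1 with hn | ⟨L0, ⟨c, s''⟩, hn⟩
      · subst hn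
        refine ⟨L3, s0 ++ s', w3, ?_, by simp, ?_, htr3, ?_, ?_, by simp [flat], ?_⟩
        · simp only [List.nil_append, List.length_cons] at hL
          omega
        · rw [lead_append]
          refine ⟨w, hlead, ?_⟩
          simp only [Tr] at htr1
          rw [htr1]
          exact hs'
        · intro c hc
          exact hne c (by simp [hc])
        · intro _ h
          exact hsne' (List.append_eq_nil_iff.1 h).2
        · simp only [List.map_nil, List.sum_nil, List.length_append]
          omega
      · rw [List.concat_eq_append] at hn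
        subst hn
        rw [tr_append] at htr1
        obtain ⟨v, htr4, htr5⟩ := htr1
        simp only [Tr] at htr5
        obtain ⟨hPc, v', hs'', hvw⟩ := htr5
        subst hvw
        refine ⟨L0 ++ (c, s'' ++ s') :: L3, s0, w, ?_, by simp, hlead, ?_, ?_, ?_, by simp [flat],
          ?_⟩
        · simp only [List.length_append, List.length_cons, List.length_nil] at hL ⊢
          omega
        · rw [tr_append]
          refine ⟨v, htr4, hPc, w3, ?_, htr3⟩
          rw [lead_append]
          exact ⟨_, hs'', hs'⟩
        · intro d hd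
          rw [List.mem_append, List.mem_cons] at hd
          rcases hd with hd | hd | hd
          · exact hne d (by simp [hd])
          · rw [hd]
            intro h
            exact hsne' (List.append_eq_nil_iff.1 h).2
          · exact hne d (by simp [hd])
        · intro h
          simp at h
        · simp only [List.map_append, List.map_cons, List.map_nil, List.sum_append,
            List.sum_cons, List.sum_nil, List.length_append]
          omega
    have hpw' : (flat t0 L').Pairwise (· < ·) := by
      rw [hfl, List.pairwise_append]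
      exact ⟨hpw1, hpw4, fun x hx y hy => hpw3 x hx y (List.mem_append_right _ hy)⟩
    obtain ⟨T₁, T₂, d1, d2, d3, d4⟩ := ih L' t0 w' hlen (by rw [hmap]; exact hInv') hlead' htr'
      hne' ht0 hpw'
    -- disjointness of the closed slot and the rest
    have hdisj : ∀ x ∈ s, ∀ y ∈ flat t0 L', x ≠ y := by
      intro x hx y hy
      rw [hfl, List.mem_append] at hy
      rcases hy with hy | hy
      · exact Ne.symm (ne_of_lt (hpw3 y hy x (List.mem_append_left _ hx)))
      · exact ne_of_lt (hpw5 x hx y hy)
    have hmem1 : ∀ x ∈ s, x ∈ flat s0 (L1 ++ (a', s) :: (b', s') :: L3) := by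
      intro x hx
      rw [hflat]
      exact List.mem_append_right _ (List.mem_append_left _ hx)
    have hmem2 : ∀ x ∈ flat t0 L', x ∈ flat s0 (L1 ++ (a', s) :: (b', s') :: L3) := by
      intro x hx
      rw [hfl] at hx
      rw [hflat]
      rcases List.mem_append.1 hx with hx | hx
      · exact List.mem_append_left _ hx
      · exact List.mem_append_right _ (List.mem_append_right _ hx)
    refine ⟨S₁ ∪ T₁, S₂ ∪ T₂, ?_, ?_, ?_, ?_⟩
    · intro t ht
      rcases Finset.mem_union.1 ht with ht | ht
      · exact ⟨hmem1 _ (c1 t ht).1, (c1 t ht).2⟩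
      · exact ⟨hmem2 _ (d1 t ht).1, (d1 t ht).2⟩
    · intro r hr
      rcases Finset.mem_union.1 hr with hr | hr
      · obtain ⟨q1, q2, q3⟩ := c2 r hr
        exact ⟨hmem1 _ q1, hmem1 _ q2, q3⟩
      · obtain ⟨q1, q2, q3⟩ := d2 r hr
        exact ⟨hmem2 _ q1, hmem2 _ q2, q3⟩
    · intro r hr r' hr' hrr
      rcases Finset.mem_union.1 hr with hr | hr <;> rcases Finset.mem_union.1 hr' with hr' | hr'
      · exact c3 r hr r' hr' hrr
      · obtain ⟨q1, q2, _⟩ := c2 r hr
        obtain ⟨q3, q4, _⟩ := d2 r' hr'
        exact ⟨hdisj _ q1 _ q3, hdisj _ q1 _ q4, hdisj _ q2 _ q3, hdisj _ q2 _ q4⟩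
      · obtain ⟨q1, q2, _⟩ := c2 r' hr'
        obtain ⟨q3, q4, _⟩ := d2 r hr
        exact ⟨(hdisj _ q1 _ q3).symm, (hdisj _ q2 _ q3).symm, (hdisj _ q1 _ q4).symm,
          (hdisj _ q2 _ q4).symm⟩
      · exact d3 r hr r' hr' hrr
    · have k1 : Disjoint S₁ T₁ := by
        rw [Finset.disjoint_left]
        intro t h1 h2
        exact hdisj _ (c1 t h1).1 _ (d1 t h2).1 rfl
      have k2 : Disjoint S₂ T₂ := by
        rw [Finset.disjoint_left]
        intro t h1 h2
        exact hdisj _ (c2 t h1).1 _ (d2 t h2).1 rfl
      rw [Finset.card_union_of_disjoint k1, Finset.card_union_of_disjoint k2]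
      simp only [List.map_append, List.map_cons, List.sum_append, List.sum_cons]
      omega

theorem tr_range (m : ℕ) :
    Tr P A ((List.range m).map fun t => (t, [t])) (P 0) (P m) := by
  induction m with
  | zero => simp [Tr]
  | succ m ih =>
    rw [List.range_succ, List.map_append, tr_append]
    refine ⟨P m, ih, ?_⟩
    simp [Tr, Lead]

end abstract

theorem occ_count {n : ℕ} (e : ℕ → Fin n) (c : Fin n) (u : ℕ) :
    ((List.range u).map e).count c = occ e c 0 u := by
  unfold occ
  rw [← Finset.range_eq_Ico]
  induction u with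
  | zero => simp
  | succ u ih =>
    rw [List.range_succ, List.map_append, List.count_append, ih, Finset.range_add_one,
      Finset.filter_insert]
    by_cases h : e u = c
    · rw [if_pos h, Finset.card_insert_of_notMem (by simp)]
      simp [h]
    · rw [if_neg h]
      simp only [List.map_cons, List.map_nil]
      rw [List.count_cons_of_ne h]
      simp

theorem occ_add {n : ℕ} (e : ℕ → Fin n) (c : Fin n) (u v : ℕ) (h : u ≤ v) :
    occ e c 0 v = occ e c 0 u + occ e c u v := by
  unfold occ
  rw [← Finset.Ico_union_Ico_eq_Ico (Nat.zero_le u) h, Finset.filter_union,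
    Finset.card_union_of_disjoint]
  rw [Finset.disjoint_left]
  intro x hx hx'
  rw [Finset.mem_filter, Finset.mem_Ico] at hx hx'
  omega

theorem inv_range {n : ℕ} (e : ℕ → Fin n) (T : ℕ) (h : TL e T) :
    ∃ φ : Fin n → Fin n → ℕ, Inv e φ (List.range T) := by
  classical
  refine ⟨fun a c => if h : ∃ u < T, e u = a then (occ e c 0 h.choose) % 2 else 0, ?_, ?_⟩
  · intro c
    rw [occ_count]
    exact h.all c
  · intro G x G' hK
    have hlen : G.length < T := by
      have := congrArg List.length hK
      simp only [List.length_range, List.length_append, List.length_cons] at this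
      omega
    have hx : x = G.length := by
      have h1 : (List.range T)[G.length]'(by simpa using hlen) = x := by
        simp only [hK]
        rw [List.getElem_append_right le_rfl]
        simp
      rw [List.getElem_range] at h1
      exact h1.symm
    have hG : G = List.range x := by
      have h1 : (List.range T).take x = G := by
        rw [hK, hx]
        simp
      rw [List.take_range, Nat.min_eq_left (by omega)] at h1
      exact h1.symm
    refine ⟨by rw [hx], ?_⟩
    intro c hc
    have hex : ∃ u < T, e u = e x := ⟨x, by omega, rfl⟩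
    show _ = (if h : ∃ u < T, e u = e x then (occ e c 0 h.choose) % 2 else 0)
    rw [dif_pos hex]
    obtain ⟨k1, k2⟩ := hex.choose_spec
    set u := hex.choose with hu
    rw [hG, occ_count]
    rcases lt_trichotomy u x with hlt | heq | hgt
    · have := h.mid u x hlt (by omega) k2 c (by rw [k2]; exact hc)
      rw [occ_add e c u x hlt.le]
      rw [Nat.even_iff] at this
      omega
    · rw [heq]
    · have := h.mid x u hgt k1 k2.symm c hc
      rw [occ_add e c x u hgt.le]
      rw [Nat.even_iff] at this
      omega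

theorem tlp : S_TLP := by
  intro n y Z N p hN hcl hTL
  obtain ⟨φ, hInv⟩ := inv_range (fun t => lab y Z t p) (2 * N) hTL
  have hopp : ∀ a b, (fun t => lab y Z t p) a = (fun t => lab y Z t p) b → a % 2 ≠ b % 2 →
      (fun t => arr y Z t p) a = (fun t => pos y Z t p) b := by
    intro a b hab hpar
    beta_reduce at hab ⊢
    unfold lab at hab
    unfold arr cr
    by_cases ha : Even a
    · have hb : ¬ Even b := by
        rw [Nat.even_iff] at ha ⊢
        omega
      rw [if_pos ha, if_neg hb] at hab
      rw [if_pos ha, Perm.mul_apply, hab, Perm.mul_apply]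
      exact y.apply_symm_apply _
    · have hb : Even b := by
        rw [Nat.even_iff] at ha ⊢
        omega
      rw [if_neg ha, if_pos hb] at hab
      rw [if_neg ha]
      exact hab
  have hstep : ∀ t, pos y Z (t + 1) p = Z t (arr y Z t p) := by
    intro t
    simp [pos, arr]
  obtain ⟨S₁, S₂, h1, h2, h3, h4⟩ := main (fun t => pos y Z t p) (fun t => arr y Z t p)
    (fun t => lab y Z t p) φ hopp p N ((List.range (2 * N)).map fun t => (t, [t])) [] p
    (by simp) (by simpa [Function.comp_def] using hInv) (by simp [Lead])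
    (by
      have := tr_range (fun t => pos y Z t p) (fun t => arr y Z t p) (2 * N)
      beta_reduce at this
      rw [hcl] at this
      exact this)
    (by
      intro c hc
      obtain ⟨t, _, rfl⟩ := List.mem_map.1 hc
      simp)
    (by
      intro h
      rw [List.map_eq_nil_iff] at h
      have := congrArg List.length h
      simp at this
      omega)
    (by
      have : flat [] ((List.range (2 * N)).map fun t => (t, [t])) = List.range (2 * N) := by
        simp only [flat, List.nil_append, List.flatMap_map]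
        exact List.flatMap_singleton' _
      rw [this]
      exact List.pairwise_lt_range)
  have hflat : flat [] ((List.range (2 * N)).map fun t => (t, [t])) = List.range (2 * N) := by
    simp only [flat, List.nil_append, List.flatMap_map]
    exact List.flatMap_singleton' _
  rw [hflat] at h1 h2
  refine ⟨S₁, S₂, ?_, ?_, h3, ?_⟩
  · intro t ht
    obtain ⟨q1, q2⟩ := h1 t ht
    exact ⟨List.mem_range.1 q1, by rw [← hstep, q2]⟩
  · intro s hs
    obtain ⟨_, q2, q3, q4, q5⟩ := h2 s hs
    exact ⟨q3, List.mem_range.1 q2, by rw [← hstep, q4, ← hstep, q5]⟩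
  · have hsum : (((List.range (2 * N)).map fun t => (t, [t])).map
        fun c : ℕ × List ℕ => 3 - c.2.length).sum = 2 * (2 * N) := by
      rw [List.map_map]
      have : ((fun c : ℕ × List ℕ => 3 - c.2.length) ∘ fun t : ℕ => (t, [t])) =
          fun _ => 2 := by
        funext t
        simp
      rw [this]
      simp
      omega
    rw [hsum] at h4
    simp only [List.length_nil] at h4
    omega

end Pool.Agent.Helper14.LL
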